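import Pool.Agent.Helper286_biclique.Core

/-!
# Bicliques or dense induced `C_4`-free subgraphs in `H`-free graphs

For every bipartite graph `H` there is a constant `C` such that for every `s ≥ 1` every finite
graph `G` without an induced copy of `H` and of average degree at least `s ^ C` contains `K_{s,s}`
as a subgraph or has a nonempty induced `C_4`-free subgraph of average degree at least `s`.

Outline of the proof. Let `G` be `H`-free and `K_{s,s}`-free, `h` the number of vertices of `H`.

* `Rich.lean`: among the independent `h`-tuples of any vertex set `U` at most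
  `O(s |U|^(h-1))` have polynomially (in `s`) many common neighbours in a given set `Y`. The reason:
  if `T` is such a tuple and for no `P, R` and no `j` outside `P ∪ R` the vertex `T j` is adjacent
  to almost all vertices joined to `T P` and not joined to `T R` (which excludes few tuples, since
  `G` is `K_{s,s}`-free), then every adjacency pattern to `T` occurs often, and `H` embeds.
* `KST.lean`: hence the induced Kovari-Sos-Turan theorem: pairs of sets of size polynomial in `s`
  have polynomially small density.
* `Reduce.lean`, `Dichotomy.lean`: take the induced subgraph of maximal average degree `d`. Either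
  an induced subgraph has average degree and maximal degree within factors `poly(J)` of `d`, or
  there are disjoint `A, B` with `|B| ≥ 2^J |A| / 256` such that every vertex of `B` has between
  `d / 16` and `8 d` neighbours in `A`.
* `Regular.lean`: in the first case there are few four-cycles, and a random subset can be cleaned.
* `Choice.lean`, `Linear.lean`, `Unbalanced.lean`: in the second case one finds in the neighbourhood
  of each `b ∈ B` an independent set `I b` of size `s^(h-1)` all of whose `h`-subsets have few
  common neighbours, restricts `A` at random so that the neighbourhood of `b` becomes `I b` for many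
  `b`, and extracts a linear subfamily by induction on the size of the sets with few common
  neighbours: either many `I b` contain an `s`-set without popular pairs, or one passes to the link
  of a vertex.
* `Params.lean`, `Core.lean`: the constants. Here `J` is a polynomial in `s` and `d < (s + 1)^C`,
  after `s` has been increased if necessary.
-/

namespace Pool.Agent.Results.MP_4d84d8_co.BicliqueOrC4Free

open SimpleGraph Pool.Agent.Helper286_biclique

/-- the average degree `2 e(G) / v(G)` of a finite graph -/
noncomputable def avgDeg {V : Type*} (G : SimpleGraph V) : ℝ :=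
  2 * (Nat.card G.edgeSet : ℝ) / (Nat.card V : ℝ)

lemma avgDeg_mul_card {V : Type*} [Fintype V] [DecidableEq V] [Nonempty V] (G : SimpleGraph V)
    [DecidableRel G.Adj] :
    avgDeg G * (Fintype.card V : ℝ) = ((∑ v, G.degree v : ℕ) : ℝ) := by
  have h1 : (Nat.card G.edgeSet) = G.edgeFinset.card := by
    rw [Nat.card_eq_fintype_card, ← SimpleGraph.edgeFinset_card]
  have h2 : (Fintype.card V : ℝ) ≠ 0 := by
    exact_mod_cast Fintype.card_ne_zero
  rw [G.sum_degrees_eq_twice_card_edges, avgDeg, h1, Nat.card_eq_fintype_card]
  push_cast
  field_simp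

lemma sum_nb_univ {V : Type*} [Fintype V] [DecidableEq V] (G : SimpleGraph V)
    [DecidableRel G.Adj] : ∑ v, (nb G Finset.univ v).card = ∑ v, G.degree v := by
  apply Finset.sum_congr rfl
  intro v _
  rw [← SimpleGraph.card_neighborFinset_eq_degree]
  congr 1
  ext u
  rw [mem_nb, SimpleGraph.mem_neighborFinset]
  simp

lemma sum_nb_induce {V : Type*} [Fintype V] [DecidableEq V] (G : SimpleGraph V)
    [DecidableRel G.Adj] (X : Finset V) [DecidableRel (G.induce (X : Set V)).Adj] :
    ∑ v ∈ X, (nb G X v).card = ∑ v : (X : Set V), (G.induce (X : Set V)).degree v := by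
  have h1 : ∀ v : (X : Set V), (G.induce (X : Set V)).degree v = (nb G X (v : V)).card := by
    intro v
    rw [← SimpleGraph.card_neighborFinset_eq_degree]
    rw [← Finset.card_map (Function.Embedding.subtype (fun x => x ∈ (X : Set V)))]
    congr 1
    ext u
    rw [Finset.mem_map, mem_nb]
    constructor
    · rintro ⟨w, hw, rfl⟩
      rw [SimpleGraph.mem_neighborFinset] at hw
      exact ⟨w.2, hw⟩
    · rintro ⟨hu, hadj⟩
      refine ⟨⟨u, hu⟩, ?_, rfl⟩
      rw [SimpleGraph.mem_neighborFinset]
      exact hadj
  simp_rw [h1]
  exact (Finset.sum_coe_sort X (fun v => (nb G X v).card)).symm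

lemma free_of_C4F {V : Type*} [Fintype V] [DecidableEq V] (G : SimpleGraph V)
    [DecidableRel G.Adj] (X : Finset V) (hX : C4F G X) :
    (cycleGraph 4).Free (G.induce (X : Set V)) := by
  rintro ⟨f⟩
  have h01 : (cycleGraph 4).Adj 0 1 := by decide
  have h12 : (cycleGraph 4).Adj 1 2 := by decide
  have h23 : (cycleGraph 4).Adj 2 3 := by decide
  have h30 : (cycleGraph 4).Adj 3 0 := by decide
  have g01 := f.toHom.map_adj h01
  have g12 := f.toHom.map_adj h12
  have g23 := f.toHom.map_adj h23
  have g30 := f.toHom.map_adj h30
  rcases hX _ (f 0).2 _ (f 1).2 _ (f 2).2 _ (f 3).2 g01 g12 g23 g30 with h | h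
  · have := f.injective (Subtype.ext h)
    exact absurd this (by decide)
  · have := f.injective (Subtype.ext h)
    exact absurd this (by decide)

lemma contains_of_not_KFree {V : Type*} [Fintype V] (G : SimpleGraph V) (s : ℕ)
    (h : ¬ KFree G s) : completeBipartiteGraph (Fin s) (Fin s) ⊑ G := by
  unfold KFree at h
  push Not at h
  obtain ⟨A, B, hA, hB, hAB⟩ := h
  set eA := (A.equivFinOfCardEq hA).symm
  set eB := (B.equivFinOfCardEq hB).symm
  refine ⟨⟨⟨Sum.elim (fun i => (eA i : V)) (fun j => (eB j : V)), ?_⟩, ?_⟩⟩
  · rintro (i | i) (j | j) hij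
    · simp [completeBipartiteGraph] at hij
    · exact hAB _ (eA i).2 _ (eB j).2
    · exact (hAB _ (eA j).2 _ (eB i).2).symm
    · simp [completeBipartiteGraph] at hij
  · rintro (i | i) (j | j) hij
    · exact congrArg Sum.inl (eA.injective (Subtype.ext hij))
    · exact absurd (hAB _ (eA i).2 _ (eB j).2) (by
        have h1 : (eA i : V) = eB j := hij
        rw [h1]; exact G.loopless.irrefl _)
    · exact absurd (hAB _ (eA j).2 _ (eB i).2) (by
        have h1 : (eB i : V) = eA j := hij
        rw [h1]; exact G.loopless.irrefl _)
    · exact congrArg Sum.inr (eB.injective (Subtype.ext hij))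

/-- For every finite bipartite graph `H` there is a constant `C` such that, for every `s ≥ 1`,
every finite graph `G` with no induced copy of `H` and average degree at least `s ^ C` contains
`K_{s,s}` as a subgraph or has a nonempty induced subgraph without 4-cycles and of average degree
at least `s`. -/
theorem result {W : Type*} [Finite W] (H : SimpleGraph W) (hH : H.IsBipartite) :
    ∃ C : ℕ, ∀ s : ℕ, 1 ≤ s → ∀ (V : Type*) [Finite V] [Nonempty V] (G : SimpleGraph V),
      ¬ H ⊴ G → (s : ℝ) ^ C ≤ avgDeg G →
      completeBipartiteGraph (Fin s) (Fin s) ⊑ G ∨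
      ∃ X : Set V, X.Nonempty ∧ (cycleGraph 4).Free (G.induce X) ∧
        (s : ℝ) ≤ avgDeg (G.induce X) := by
  classical
  obtain ⟨n, ⟨e⟩⟩ := Finite.exists_equiv_fin W
  rcases n with _ | m
  · -- `H` has no vertices
    refine ⟨0, ?_⟩
    intro s _ V _ _ G hfree _
    have : IsEmpty W := e.isEmpty
    exact absurd IsIndContained.of_isEmpty hfree
  · have iso : H.comap e.symm ≃g H := SimpleGraph.Iso.comap e.symm H
    have hcol : (H.comap e.symm).Colorable 2 := hH.of_hom iso.toEmbedding.toHom
    obtain ⟨C, hC⟩ := core (H.comap e.symm) hcol
    refine ⟨C, ?_⟩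
    intro s hs V _ _ G hfree hdeg
    have : Fintype V := Fintype.ofFinite V
    by_cases hK : KFree G s
    · right
      have hfree' : IsEmpty (H.comap e.symm ↪g G) :=
        ⟨fun f => hfree ⟨iso.symm.toEmbedding.trans f⟩⟩
      have hdeg' : s ^ C * Fintype.card V ≤ ∑ v, (nb G Finset.univ v).card := by
        rw [sum_nb_univ]
        have h1 := avgDeg_mul_card G
        have h2 : (s : ℝ) ^ C * (Fintype.card V : ℝ) ≤ avgDeg G * (Fintype.card V : ℝ) :=
          mul_le_mul_of_nonneg_right hdeg (Nat.cast_nonneg _)
        rw [h1] at h2
        exact_mod_cast h2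
      obtain ⟨X, hXne, hXC4, hXdeg⟩ := hC s hs V G hfree' hdeg' hK
      refine ⟨(X : Set V), by exact_mod_cast hXne, free_of_C4F G X hXC4, ?_⟩
      have : Nonempty (X : Set V) := hXne.to_subtype
      rw [sum_nb_induce] at hXdeg
      have h1 := avgDeg_mul_card (G.induce (X : Set V))
      have h2 : (Fintype.card (X : Set V)) = X.card := by simp
      have h3 : (s : ℝ) * (Fintype.card (X : Set V) : ℝ) ≤
          avgDeg (G.induce (X : Set V)) * (Fintype.card (X : Set V) : ℝ) := by
        rw [h1, h2]
        exact_mod_cast hXdeg
      have h4 : (0 : ℝ) < (Fintype.card (X : Set V) : ℝ) := by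
        exact_mod_cast Fintype.card_pos
      exact le_of_mul_le_mul_right h3 h4
    · left
      exact contains_of_not_KFree G s hK

end Pool.Agent.Results.MP_4d84d8_co.BicliqueOrC4Free
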